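import Pool.Agent.H90.SK.Sys
import Pool.Agent.H90.SK.Rpm
import Pool.Agent.H90.SK.Circ

/-!
# The primes `m² + 1` in residue classes to large moduli

Let `f_1, …, f_r` be distinct irreducible polynomials with integer coefficients and positive leading
coefficients, whose product has no fixed prime divisor (for instance `m² + 1`, `r = 1`).  It is proved
that the integers `n ≤ x` for which all `f_i(n)` are primes, and more generally any set `S` of such
integers, are distributed among the residue classes to moduli `q`, with `q` as large as a small multiple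
of `x / log^r x` (the conjectural order of the number of these integers), as their distribution modulo a
bounded divisor `gcd(q, P)` of `q` predicts, in mean square.  So the Hardy-Littlewood asymptotic formulas
in all fixed residue classes are equivalent to their mean square form for moduli up to
`δ x / log^r x`, and to the mean square form at one arbitrarily slowly growing scale.

Moreover there is one set `T` of real numbers of Hausdorff dimension zero such that for all `α` outside `T`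
and ALL these systems the integers `n` for which all `f_i(n)` are primes are, in every fixed residue class,
asymptotically independent of `α n` modulo one.  So for these `α` the asymptotic formulas for a system (for
instance for the primes `n² + 1`) are equivalent to the formulas for the `n` with `α n` in any fixed subset
of `ℝ/ℤ` of positive measure with boundary of measure zero, and, for `α > 1`, to those for the `n` in the
Beatty sequence of the integers `⌊α j + γ⌋`, for every real `γ`.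

Method: the large sieve for the integers `n ≤ N` sifted by at most `k` residue classes modulo the primes,
at `R` arbitrary points with distances at least `1 / N` modulo one and with arbitrary bounded
coefficients: `∑_r |∑_n b(n) e(n ξ_r)|² ≤ C (log 2 R)^(2 k) (N V)²`, `V` the sieve product.

No unproved hypothesis is made.
-/

set_option autoImplicit false

namespace Pool.Agent.Results.MP_f1a94e_nt.LargeModuli

open Filter Topology Polynomial MeasureTheory

section Definitions

/-- `f` is a system of distinct irreducible polynomials of positive degrees with positive leading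
coefficients, the product of which has no fixed prime divisor. -/
structure Admissible {r : ℕ} (f : Fin r → ℤ[X]) : Prop where
  irreducible : ∀ i, Irreducible (f i)
  degree : ∀ i, 0 < (f i).natDegree
  leading : ∀ i, 0 < (f i).leadingCoeff
  distinct : Function.Injective f
  noFixedPrime : ∀ p : ℕ, p.Prime → ∃ m : ℕ, ∀ i, ¬ (p : ℤ) ∣ (f i).eval (m : ℤ)

/-- The integers `n` for which all `|f_i(n)|` are primes. -/
def primeArguments {r : ℕ} (f : Fin r → ℤ[X]) : Set ℕ :=
  {n : ℕ | ∀ i, ((f i).eval (n : ℤ)).natAbs.Prime}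

/-- The number of the `n ∈ S` with `1 ≤ n ≤ x` and `n ≡ a` modulo `q`. -/
noncomputable def count (S : Set ℕ) (x q a : ℕ) : ℝ :=
  (Set.ncard {n : ℕ | n ∈ S ∧ 1 ≤ n ∧ n ≤ x ∧ n ≡ a [MOD q]} : ℝ)

/-- `x / log^r x`. -/
noncomputable def size (r x : ℕ) : ℝ := (x : ℝ) / Real.log x ^ r

/-- The sum over all classes to all moduli `Q ≤ q < 2 Q` of the squares of the differences of the
number of the elements of `S` in the class modulo `q` and the proportion `g / q` of the number of those in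
the class modulo `g = gcd(q, P)`. -/
noncomputable def relative (S : Set ℕ) (x P Q : ℕ) : ℝ :=
  ∑ q ∈ Finset.Ico Q (2 * Q), ∑ a ∈ Finset.range q,
    (count S x q a - (Nat.gcd q P / q : ℝ) * count S x (Nat.gcd q P) a) ^ 2

/-- The same for the differences to `(g / q) c(g, a) x / log^r x`, with `g = gcd(q, P)`. -/
noncomputable def deviation (r : ℕ) (S : Set ℕ) (c : ℕ → ℕ → ℝ) (x P Q : ℕ) : ℝ :=
  ∑ q ∈ Finset.Ico Q (2 * Q), ∑ a ∈ Finset.range q,
    (count S x q a - (Nat.gcd q P / q : ℝ) * (c (Nat.gcd q P) (a % Nat.gcd q P) * size r x)) ^ 2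

/-- The numbers `c(q, a)`, `0 ≤ a < q`, are consistent, as the constants of Hardy and Littlewood are:
`c(q, a)` is the sum of `c(q', a')` over the classes `a'` modulo the multiple `q'` of `q` in the class
`a` modulo `q`. -/
def Consistent (c : ℕ → ℕ → ℝ) : Prop :=
  ∀ q q' a : ℕ, 1 ≤ q' → q ∣ q' → a < q →
    c q a = ∑ b ∈ (Finset.range q').filter (fun b => b ≡ a [MOD q]), c q' b

/-- (i) The number of the elements of `S` up to `x` is `(c(q, a) + o(1)) x / log^r x` in every fixed
residue class. -/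
def Fixed (r : ℕ) (S : Set ℕ) (c : ℕ → ℕ → ℝ) : Prop :=
  ∀ q a : ℕ, 1 ≤ q → a < q → Tendsto (fun x : ℕ => count S x q a / size r x) atTop (𝓝 (c q a))

/-- (ii) The mean square law for all moduli up to `δ x / log^r x`. -/
def Large (r : ℕ) (S : Set ℕ) (c : ℕ → ℕ → ℝ) : Prop :=
  ∀ ε : ℝ, 0 < ε → ∃ (P₀ : ℕ) (δ : ℝ), 1 ≤ P₀ ∧ 0 < δ ∧ ∀ P : ℕ, 1 ≤ P → P₀ ∣ P → ∀ᶠ x : ℕ in atTop,
    ∀ Q : ℕ, 1 ≤ Q → (Q : ℝ) ≤ δ * size r x → deviation r S c x P Q ≤ ε * size r x ^ 2

/-- (iii) The mean square law for one scale `Q(x)`, which tends to infinity with `x`. -/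
def OneScale (r : ℕ) (S : Set ℕ) (c : ℕ → ℕ → ℝ) : Prop :=
  ∃ Q : ℕ → ℕ, Tendsto Q atTop atTop ∧ ∀ ε : ℝ, 0 < ε → ∃ P₀ : ℕ, 1 ≤ P₀ ∧ ∀ P : ℕ, 1 ≤ P → P₀ ∣ P →
    ∀ᶠ x : ℕ in atTop, deviation r S c x P (Q x) ≤ ε * size r x ^ 2

/-- The integers `n` with `α n ∈ B` modulo one. -/
def bohr (α : ℝ) (B : Set UnitAddCircle) : Set ℕ := {n : ℕ | ((n * α : ℝ) : UnitAddCircle) ∈ B}

/-- The integers `n` of the form `⌊α j + γ⌋`. -/
def beatty (α γ : ℝ) : Set ℕ := {n : ℕ | ∃ j : ℤ, (n : ℤ) = ⌊α * j + γ⌋}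

/-- In every residue class the number of the elements of `S ∩ W` up to `x` is `v` times the number of
those of `S`, up to `o(x / log^r x)`. -/
def Independent (r : ℕ) (S W : Set ℕ) (v : ℝ) : Prop :=
  ∀ q a : ℕ, 1 ≤ q → a < q →
    Tendsto (fun x : ℕ => (count (S ∩ W) x q a - v * count S x q a) / size r x) atTop (𝓝 0)

end Definitions

/-! ### proofs -/

section Proofs

open Finset Pool.Agent.H90.SK Pool.Agent.Helper112

theorem sys {r : ℕ} {f : Fin r → ℤ[X]} (hf : Admissible f) : Pool.Agent.W123.RU.Poly.Sys f :=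
  ⟨hf.irreducible, hf.degree, hf.leading, hf.distinct, hf.noFixedPrime⟩

theorem size_eq (r x : ℕ) : size r x = XX r x := rfl

open Classical in
theorem count_eq (S : Set ℕ) (x q a : ℕ) :
    count S x q a = (((Icc 1 x).filter (fun n => n ∈ S ∧ n ≡ a [MOD q])).card : ℝ) := by
  unfold count
  rw [← Set.ncard_coe_finset]
  congr 2
  ext n
  simp only [coe_filter, mem_Icc, Set.mem_ofPred_eq]
  tauto

open Classical in
/-- the indicator -/
noncomputable def ind (S : Set ℕ) (n : ℕ) : ℂ := if n ∈ S then 1 else 0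

theorem cls_eq (S : Set ℕ) (x q a : ℕ) : cls x (ind S) q a = (count S x q a : ℂ) := by
  classical
  rw [count_eq]
  unfold cls ind
  rw [← sum_filter, sum_const, filter_filter, nsmul_eq_mul, mul_one]
  push_cast
  congr 2
  apply filter_congr
  intro n _
  tauto

theorem relative_eq (S : Set ℕ) (x P Q : ℕ) : relative S x P Q =
    ∑ q ∈ Ico Q (2 * Q), ∑ a ∈ range q, ‖DF x (ind S) q (Nat.gcd q P) a‖ ^ 2 := by
  unfold relative
  apply sum_congr rfl
  intro q _
  apply sum_congr rfl
  intro a _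
  unfold DF
  rw [cls_eq, cls_eq]
  have : ((count S x q a : ℝ) : ℂ) - ((Nat.gcd q P : ℂ) / q) * ((count S x (Nat.gcd q P) a : ℝ) : ℂ) =
      ((count S x q a - (Nat.gcd q P / q : ℝ) * count S x (Nat.gcd q P) a : ℝ) : ℂ) := by
    push_cast
    rfl
  rw [this, Complex.norm_real, Real.norm_eq_abs, sq_abs]

theorem size_pos (r : ℕ) {x : ℕ} (hx : 2 ≤ x) : 0 < size r x := by
  unfold size
  have : 0 < Real.log x := Real.log_pos (by exact_mod_cast (by omega : 1 < x))
  have : (0 : ℝ) < x := by exact_mod_cast (by omega : 0 < x)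
  positivity

/-- part (1), with the constant -/
theorem rel {r : ℕ} {f : Fin r → ℤ[X]} (hf : Admissible f) (ε : ℝ) (hε : 0 < ε) :
    ∃ (P₀ : ℕ) (δ : ℝ), 1 ≤ P₀ ∧ 0 < δ ∧ ∀ᶠ x : ℕ in atTop, ∀ S : Set ℕ, S ⊆ primeArguments f →
      ∀ P : ℕ, 1 ≤ P → P₀ ∣ P → ∀ Q : ℕ, 1 ≤ Q → (Q : ℝ) ≤ δ * size r x →
        relative S x P Q ≤ ε * size r x ^ 2 := by
  obtain ⟨C, hC, hmain⟩ := main_rel f (sys hf)
  -- the choice of `K`
  set K : ℕ := ⌈(2 * C / ε) ^ 2⌉₊ + 1 with hK
  have hK1 : 1 ≤ K := by omega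
  have hK0 : (0 : ℝ) < K := by exact_mod_cast hK1
  have hKs : 2 * C / ε ≤ √(K : ℝ) := by
    apply Real.le_sqrt_of_sq_le
    rw [hK]
    push_cast
    linarith [Nat.le_ceil ((2 * C / ε) ^ 2)]
  have hsK : 0 < √(K : ℝ) := Real.sqrt_pos.2 hK0
  have hCK : C / √K ≤ ε / 2 := by
    rw [div_le_iff₀ hsK]
    have := mul_le_mul_of_nonneg_left hKs (show 0 ≤ ε / 2 by positivity)
    calc C = ε / 2 * (2 * C / ε) := by field_simp
      _ ≤ _ := this
  refine ⟨K.factorial, ε / (2 * C), Nat.factorial_pos K, by positivity, ?_⟩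
  filter_upwards [hmain, eventually_ge_atTop 2] with x hx hx2 S hS P hP hPP Q hQ hQx
  have hX := size_pos r hx2
  have h1 := hx (ind S) (by
    intro n hn i
    unfold ind at hn
    by_contra hcon
    apply hn
    rw [if_neg]
    intro hnS
    exact hcon (hS hnS i)) (by
    intro n
    unfold ind
    split_ifs <;> simp) K P hK1 (by
    intro d hd hdK
    exact (Nat.dvd_factorial (by omega) hdK).trans hPP) Q hQ
  rw [← relative_eq, ← size_eq] at h1
  refine h1.trans ?_
  have t1 : C * (size r x ^ 2 / √K) ≤ ε / 2 * size r x ^ 2 := by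
    calc C * (size r x ^ 2 / √K) = C / √K * size r x ^ 2 := by ring
      _ ≤ _ := mul_le_mul_of_nonneg_right hCK (by positivity)
  have t2 : C * (Q * size r x) ≤ ε / 2 * size r x ^ 2 := by
    calc C * (Q * size r x) ≤ C * (ε / (2 * C) * size r x * size r x) := by
          apply mul_le_mul_of_nonneg_left _ hC.le
          exact mul_le_mul_of_nonneg_right hQx hX.le
      _ = _ := by field_simp
  linarith

theorem sum_mod (g m : ℕ) (F : ℕ → ℝ) :
    ∑ a ∈ range (g * m), F (a % g) = m * ∑ a ∈ range g, F a := by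
  induction m with
  | zero => simp
  | succ m ih =>
    rw [mul_add, mul_one, sum_range_add, ih]
    have : ∑ x ∈ range g, F ((g * m + x) % g) = ∑ a ∈ range g, F a := by
      apply sum_congr rfl
      intro a ha
      rw [Nat.mul_add_mod, Nat.mod_eq_of_lt (mem_range.1 ha)]
    rw [this]
    push_cast
    ring

theorem fiber {q₀ g q : ℕ} (h1 : q₀ ∣ g) (h2 : g ∣ q) (hq : 1 ≤ q) (a₀ : ℕ) (h : ℕ → ℝ) :
    ∑ a ∈ (range q).filter (fun a => a ≡ a₀ [MOD q₀]), h (a % g) =
      ((q : ℝ) / g) * ∑ a ∈ (range g).filter (fun a => a ≡ a₀ [MOD q₀]), h a := by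
  obtain ⟨m, rfl⟩ := h2
  have hg : 0 < g := Nat.pos_of_ne_zero (by rintro rfl; simp at hq)
  have hg0 : (g : ℝ) ≠ 0 := by positivity
  have h3 := sum_mod g m (fun a => if a ≡ a₀ [MOD q₀] then h a else 0)
  rw [sum_filter, sum_filter]
  have h4 : ∀ a ∈ range (g * m), (if a ≡ a₀ [MOD q₀] then h (a % g) else 0) =
      (fun a => if a ≡ a₀ [MOD q₀] then h a else 0) (a % g) := by
    intro a _
    have : a % g ≡ a₀ [MOD q₀] ↔ a ≡ a₀ [MOD q₀] := by
      have h5 : a % g ≡ a [MOD q₀] := (Nat.mod_modEq a g).of_dvd h1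
      exact ⟨fun h => h5.symm.trans h, fun h => h5.trans h⟩
    simp only [this]
  rw [sum_congr rfl h4, h3]
  push_cast
  field_simp

theorem count_split {q₀ q : ℕ} (h1 : q₀ ∣ q) (hq : 1 ≤ q) (S : Set ℕ) (x a₀ : ℕ) :
    count S x q₀ a₀ = ∑ a ∈ (range q).filter (fun a => a ≡ a₀ [MOD q₀]), count S x q a := by
  classical
  simp only [count_eq]
  rw [← Nat.cast_sum]
  congr 1
  rw [← card_biUnion]
  · congr 1
    ext n
    simp only [mem_filter, mem_Icc, mem_biUnion, mem_range]
    constructor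
    · rintro ⟨hn, hS, hmod⟩
      refine ⟨n % q, ⟨Nat.mod_lt _ (by omega), ?_⟩, hn, hS, (Nat.mod_modEq n q).symm⟩
      exact ((Nat.mod_modEq n q).of_dvd h1).trans hmod
    · rintro ⟨a, ⟨_, ha⟩, hn, hS, hmod⟩
      exact ⟨hn, hS, (hmod.of_dvd h1).trans ha⟩
  · intro a ha b hb hab
    rw [Function.onFun, disjoint_left]
    intro n hn hn'
    rw [mem_filter] at hn hn'
    rw [mem_coe, mem_filter, mem_range] at ha hb
    apply hab
    have h5 : a ≡ b [MOD q] := hn.2.2.symm.trans hn'.2.2
    exact h5.eq_of_lt_of_lt ha.1 hb.1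

theorem card_class {q₀ q : ℕ} (h1 : q₀ ∣ q) (hq : 1 ≤ q) {a₀ : ℕ} (ha : a₀ < q₀) :
    (((range q).filter (fun a => a ≡ a₀ [MOD q₀])).card : ℝ) = (q : ℝ) / q₀ := by
  have h2 := fiber (dvd_refl q₀) h1 hq a₀ (fun _ => 1)
  rw [sum_const, nsmul_eq_mul, mul_one] at h2
  rw [h2]
  have h3 : (range q₀).filter (fun a => a ≡ a₀ [MOD q₀]) = {a₀} := by
    ext a
    rw [mem_filter, mem_range, mem_singleton]
    constructor
    · rintro ⟨h4, h5⟩
      exact h5.eq_of_lt_of_lt h4 ha
    · rintro rfl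
      exact ⟨ha, rfl⟩
  rw [h3, sum_singleton, mul_one]

theorem to_large {r : ℕ} {f : Fin r → ℤ[X]} (hf : Admissible f) {S : Set ℕ} (hS : S ⊆ primeArguments f)
    {c : ℕ → ℕ → ℝ} (h : Fixed r S c) : Large r S c := by
  intro ε hε
  obtain ⟨P₀, δ, hP₀, hδ, hrel⟩ := rel hf (ε / 4) (by positivity)
  refine ⟨P₀, δ, hP₀, hδ, fun P hP hPP => ?_⟩
  have hP0 : (0 : ℝ) < P := by exact_mod_cast hP
  set η : ℝ := √(ε / 4) / P with hη
  have hη0 : 0 < η := by positivity
  have hfix : ∀ᶠ x : ℕ in atTop, ∀ g ∈ Icc 1 P, ∀ a ∈ range g, |count S x g a / size r x - c g a| ≤ η := by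
    rw [eventually_all_finset]
    intro g hg
    rw [eventually_all_finset]
    intro a ha
    rw [mem_Icc] at hg
    rw [mem_range] at ha
    have := (h g a hg.1 ha)
    rw [Metric.tendsto_nhds] at this
    filter_upwards [this η hη0] with x hx
    rw [Real.dist_eq] at hx
    exact hx.le
  filter_upwards [hrel, hfix, eventually_ge_atTop 2] with x hx1 hx2 hx3 Q hQ hQx
  have hX := size_pos r hx3
  have h1 := hx1 S hS P hP hPP Q hQ hQx
  have hQ0 : (0 : ℝ) < Q := by exact_mod_cast hQ
  have h2 : ∀ q ∈ Ico Q (2 * Q), ∀ a ∈ range q,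
      (count S x q a - (Nat.gcd q P / q : ℝ) * (c (Nat.gcd q P) (a % Nat.gcd q P) * size r x)) ^ 2 ≤
        2 * (count S x q a - (Nat.gcd q P / q : ℝ) * count S x (Nat.gcd q P) a) ^ 2 +
          2 * ((P : ℝ) / q * (η * size r x)) ^ 2 := by
    intro q hq a _
    rw [mem_Ico] at hq
    have hq1 : 1 ≤ q := by omega
    have hq0 : (0 : ℝ) < q := by exact_mod_cast hq1
    set g := Nat.gcd q P with hg
    have hg1 : 1 ≤ g := Nat.gcd_pos_of_pos_right q hP
    have hgP : g ≤ P := Nat.le_of_dvd hP (Nat.gcd_dvd_right q P)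
    have e1 : count S x g a = count S x g (a % g) := by
      unfold count
      have : ∀ n : ℕ, n ≡ a [MOD g] ↔ n ≡ a % g [MOD g] := fun n =>
        ⟨fun h => h.trans (Nat.mod_modEq a g).symm, fun h => h.trans (Nat.mod_modEq a g)⟩
      simp only [this]
    have e2 := hx2 g (mem_Icc.2 ⟨hg1, hgP⟩) (a % g) (mem_range.2 (Nat.mod_lt _ hg1))
    have e3 : |count S x g a - c g (a % g) * size r x| ≤ η * size r x := by
      have : count S x g a - c g (a % g) * size r x = (count S x g (a % g) / size r x - c g (a % g)) * size r x := by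
        rw [e1]
        field_simp
      rw [this, abs_mul, abs_of_pos hX]
      exact mul_le_mul_of_nonneg_right e2 hX.le
    have e4 : |(g / q : ℝ) * (count S x g a - c g (a % g) * size r x)| ≤ (P : ℝ) / q * (η * size r x) := by
      rw [abs_mul, abs_of_nonneg (by positivity)]
      apply mul_le_mul _ e3 (abs_nonneg _) (by positivity)
      apply div_le_div_of_nonneg_right _ hq0.le
      exact_mod_cast hgP
    have e5 : ((g / q : ℝ) * (count S x g a - c g (a % g) * size r x)) ^ 2 ≤ ((P : ℝ) / q * (η * size r x)) ^ 2 := by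
      rw [← sq_abs]
      exact pow_le_pow_left₀ (abs_nonneg _) e4 2
    have e6 : count S x q a - (g / q : ℝ) * (c g (a % g) * size r x) =
        (count S x q a - (g / q : ℝ) * count S x g a) + (g / q : ℝ) * (count S x g a - c g (a % g) * size r x) := by
      ring
    rw [e6]
    nlinarith [sq_nonneg ((count S x q a - (g / q : ℝ) * count S x g a) -
      (g / q : ℝ) * (count S x g a - c g (a % g) * size r x))]
  have h3 : ∑ q ∈ Ico Q (2 * Q), ∑ a ∈ range q, ((P : ℝ) / q * (η * size r x)) ^ 2 ≤ ε / 4 * size r x ^ 2 := by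
    have h4 : ∀ q ∈ Ico Q (2 * Q), ∑ a ∈ range q, ((P : ℝ) / q * (η * size r x)) ^ 2 ≤
        1 / (Q : ℝ) * (ε / 4 * size r x ^ 2) := by
      intro q hq
      rw [mem_Ico] at hq
      have hq0 : (0 : ℝ) < q := by exact_mod_cast (by omega : 0 < q)
      rw [sum_const, card_range, nsmul_eq_mul]
      have e1 : (q : ℝ) * ((P : ℝ) / q * (η * size r x)) ^ 2 = 1 / (q : ℝ) * (ε / 4 * size r x ^ 2) := by
        rw [hη]
        have : √(ε / 4) ^ 2 = ε / 4 := Real.sq_sqrt (by positivity)
        field_simp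
        rw [this]
        ring
      rw [e1]
      apply mul_le_mul_of_nonneg_right _ (by positivity)
      apply one_div_le_one_div_of_le hQ0
      exact_mod_cast hq.1
    refine (sum_le_sum h4).trans ?_
    rw [sum_const, nsmul_eq_mul, Nat.card_Ico]
    have : ((2 * Q - Q : ℕ) : ℝ) = Q := by
      congr 1
      omega
    rw [this]
    apply le_of_eq
    field_simp
  unfold relative at h1
  unfold deviation
  calc ∑ q ∈ Ico Q (2 * Q), ∑ a ∈ range q,
        (count S x q a - (Nat.gcd q P / q : ℝ) * (c (Nat.gcd q P) (a % Nat.gcd q P) * size r x)) ^ 2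
      ≤ ∑ q ∈ Ico Q (2 * Q), ∑ a ∈ range q,
        (2 * (count S x q a - (Nat.gcd q P / q : ℝ) * count S x (Nat.gcd q P) a) ^ 2 +
          2 * ((P : ℝ) / q * (η * size r x)) ^ 2) :=
        sum_le_sum fun q hq => sum_le_sum fun a ha => h2 q hq a ha
    _ = 2 * ∑ q ∈ Ico Q (2 * Q), ∑ a ∈ range q,
          (count S x q a - (Nat.gcd q P / q : ℝ) * count S x (Nat.gcd q P) a) ^ 2 +
        2 * ∑ q ∈ Ico Q (2 * Q), ∑ a ∈ range q, ((P : ℝ) / q * (η * size r x)) ^ 2 := by
        rw [mul_sum, mul_sum, ← sum_add_distrib]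
        apply sum_congr rfl
        intro q _
        rw [mul_sum, mul_sum, ← sum_add_distrib]
    _ ≤ _ := by linarith

theorem to_one {r : ℕ} {S : Set ℕ} {c : ℕ → ℕ → ℝ} (h : Large r S c) : OneScale r S c := by
  refine ⟨fun x => ⌊(x : ℝ) ^ (1 / 4 : ℝ)⌋₊, ?_, ?_⟩
  · exact tendsto_nat_floor_atTop.comp ((tendsto_rpow_atTop (by norm_num)).comp
      (tendsto_natCast_atTop_atTop (R := ℝ)))
  · intro ε hε
    obtain ⟨P₀, δ, hP₀, hδ, h1⟩ := h ε hε
    refine ⟨P₀, hP₀, fun P hP hPP => ?_⟩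
    have ev1 : ∀ᶠ x : ℕ in atTop, max 1 (1 / δ) ≤ (x : ℝ) ^ (1 / 4 : ℝ) :=
      ((tendsto_rpow_atTop (show (0 : ℝ) < 1 / 4 by norm_num)).comp
        (tendsto_natCast_atTop_atTop (R := ℝ))).eventually (eventually_ge_atTop _)
    filter_upwards [h1 P hP hPP, ev1, ev_pow r, eventually_ge_atTop 2] with x e1 e2 e3 e4
    have hx0 : (0 : ℝ) < x := by exact_mod_cast (by omega : 0 < x)
    have hlx : 0 < Real.log x := Real.log_pos (by exact_mod_cast (by omega : 1 < x))
    apply e1
    · exact Nat.le_floor (by simpa using (le_max_left _ _).trans e2)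
    · have a1 : (⌊(x : ℝ) ^ (1 / 4 : ℝ)⌋₊ : ℝ) ≤ (x : ℝ) ^ (1 / 4 : ℝ) := Nat.floor_le (by positivity)
      refine a1.trans ?_
      unfold size
      rw [← mul_div_assoc, le_div_iff₀ (by positivity)]
      set t : ℝ := (x : ℝ) ^ (1 / 4 : ℝ) with ht
      have ht0 : 0 < t := by positivity
      have hs : √(x : ℝ) = t * t := by
        rw [Real.sqrt_eq_rpow, ht, ← Real.rpow_add hx0]
        norm_num
      have hx4 : (x : ℝ) = t * t * (t * t) := by
        rw [← hs]
        exact (Real.mul_self_sqrt hx0.le).symm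
      have a2 : 1 ≤ δ * t := by
        have := (le_max_right 1 (1 / δ)).trans e2
        rw [div_le_iff₀ hδ] at this
        linarith
      calc t * Real.log x ^ r ≤ t * (t * t) := by
            apply mul_le_mul_of_nonneg_left _ ht0.le
            rw [← hs]; exact e3
        _ = 1 * (t * (t * t)) := by ring
        _ ≤ (δ * t) * (t * (t * t)) := mul_le_mul_of_nonneg_right a2 (by positivity)
        _ = δ * x := by rw [hx4]; ring

theorem to_fixed {r : ℕ} {S : Set ℕ} {c : ℕ → ℕ → ℝ} (hc : Consistent c) (h : OneScale r S c) :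
    Fixed r S c := by
  obtain ⟨Q, hQ, h1⟩ := h
  intro q₀ a₀ hq₀ ha₀
  rw [Metric.tendsto_nhds]
  intro η hη
  obtain ⟨P₀, hP₀, h2⟩ := h1 (η ^ 2 / 16) (by positivity)
  set P : ℕ := P₀ * q₀ with hPdef
  have hP1 : 1 ≤ P := Nat.mul_pos hP₀ hq₀
  have hq₀r : (0 : ℝ) < q₀ := by exact_mod_cast hq₀
  filter_upwards [h2 P hP1 ⟨q₀, rfl⟩, hQ.eventually (eventually_ge_atTop (2 * q₀)),
    eventually_ge_atTop 2] with x e1 e2 e3
  have hX := size_pos r e3
  set M : ℕ := Q x / q₀ with hM
  have hM2 : 2 ≤ M := (Nat.le_div_iff_mul_le hq₀).2 e2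
  have hMQ : M * q₀ ≤ Q x := Nat.div_mul_le_self _ _
  have hMQ2 : Q x < (M + 1) * q₀ := by
    have := Nat.lt_div_mul_add (a := Q x) hq₀
    rw [← hM] at this
    linarith
  set D : ℝ := count S x q₀ a₀ - c q₀ a₀ * size r x with hD
  -- one modulus
  have key : ∀ j : ℕ, 1 ≤ j → D ^ 2 ≤ j * ∑ a ∈ range (q₀ * j),
      (count S x (q₀ * j) a - (Nat.gcd (q₀ * j) P / ((q₀ * j : ℕ) : ℝ)) *
        (c (Nat.gcd (q₀ * j) P) (a % Nat.gcd (q₀ * j) P) * size r x)) ^ 2 := by
    intro j hj
    set q := q₀ * j with hq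
    have hq1 : 1 ≤ q := Nat.mul_pos hq₀ hj
    have hq0 : (0 : ℝ) < q := by exact_mod_cast hq1
    have hd1 : q₀ ∣ q := ⟨j, rfl⟩
    set g := Nat.gcd q P with hg
    have hg1 : 1 ≤ g := Nat.gcd_pos_of_pos_right q hP1
    have hg0 : (0 : ℝ) < g := by exact_mod_cast hg1
    have hgd : q₀ ∣ g := Nat.dvd_gcd hd1 ⟨P₀, by rw [hPdef]; ring⟩
    have hgq : g ∣ q := Nat.gcd_dvd_left q P
    set e : ℕ → ℝ := fun a => count S x q a - (g / (q : ℝ)) * (c g (a % g) * size r x) with he
    have k1 : D = ∑ a ∈ (range q).filter (fun a => a ≡ a₀ [MOD q₀]), e a := by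
      rw [he, sum_sub_distrib, ← count_split hd1 hq1, hD]
      congr 1
      rw [← mul_sum, ← sum_mul, fiber hgd hgq hq1 a₀ (fun a => c g a),
        ← hc q₀ g a₀ hg1 hgd ha₀]
      field_simp
    have k2 : D ^ 2 ≤ (((range q).filter (fun a => a ≡ a₀ [MOD q₀])).card : ℝ) *
        ∑ a ∈ (range q).filter (fun a => a ≡ a₀ [MOD q₀]), e a ^ 2 := by
      rw [k1]
      exact sq_sum_le_card_mul_sum_sq
    rw [card_class hd1 hq1 ha₀] at k2
    have k3 : (q : ℝ) / q₀ = j := by
      rw [hq]; push_cast; field_simp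
    rw [k3] at k2
    refine k2.trans ?_
    apply mul_le_mul_of_nonneg_left _ (Nat.cast_nonneg j)
    exact sum_le_sum_of_subset_of_nonneg (filter_subset _ _) (fun _ _ _ => by positivity)
  -- the sum over the moduli
  set E : ℕ → ℝ := fun q => ∑ a ∈ range q,
      (count S x q a - (Nat.gcd q P / (q : ℝ)) * (c (Nat.gcd q P) (a % Nat.gcd q P) * size r x)) ^ 2 with hE
  have hE0 : ∀ q, 0 ≤ E q := fun q => sum_nonneg fun _ _ => by positivity
  have k4 : ∑ j ∈ Ico (M + 1) (2 * M), E (q₀ * j) ≤ deviation r S c x P (Q x) := by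
    unfold deviation
    have : ∑ j ∈ Ico (M + 1) (2 * M), E (q₀ * j) = ∑ q ∈ (Ico (M + 1) (2 * M)).image (fun j => q₀ * j), E q := by
      rw [sum_image]
      intro a _ b _ hab
      exact Nat.eq_of_mul_eq_mul_left hq₀ hab
    rw [this]
    apply sum_le_sum_of_subset_of_nonneg
    · intro q hq
      rw [mem_image] at hq
      obtain ⟨j, hj, rfl⟩ := hq
      rw [mem_Ico] at hj ⊢
      constructor
      · have : (M + 1) * q₀ ≤ j * q₀ := Nat.mul_le_mul_right _ hj.1
        nlinarith
      · have : j * q₀ < 2 * M * q₀ := Nat.mul_lt_mul_of_pos_right hj.2 hq₀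
        nlinarith
    · intro q _ _
      exact hE0 q
  have k5 : ∀ j ∈ Ico (M + 1) (2 * M), D ^ 2 / (2 * M) ≤ E (q₀ * j) := by
    intro j hj
    rw [mem_Ico] at hj
    have hj1 : 1 ≤ j := by omega
    have := key j hj1
    have hM0 : (0 : ℝ) < 2 * M := by
      have : (0 : ℝ) < M := by exact_mod_cast (by omega : 0 < M)
      linarith
    rw [div_le_iff₀ hM0]
    have hjM : (j : ℝ) ≤ 2 * M := by exact_mod_cast hj.2.le
    calc D ^ 2 ≤ j * E (q₀ * j) := this
      _ ≤ 2 * M * E (q₀ * j) := mul_le_mul_of_nonneg_right hjM (hE0 _)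
      _ = _ := by ring
  have k6 := sum_le_sum k5
  rw [sum_const, nsmul_eq_mul, Nat.card_Ico] at k6
  have k7 : D ^ 2 / 4 ≤ ((2 * M - (M + 1) : ℕ) : ℝ) * (D ^ 2 / (2 * M)) := by
    have hM0 : (0 : ℝ) < M := by exact_mod_cast (by omega : 0 < M)
    have : ((2 * M - (M + 1) : ℕ) : ℝ) = M - 1 := by
      have h5 : 2 * M - (M + 1) = M - 1 := by omega
      rw [h5, Nat.cast_sub (by omega)]
      simp
    rw [this]
    have hM2' : (2 : ℝ) ≤ M := by exact_mod_cast hM2
    rw [mul_div_assoc', div_le_div_iff₀ (by norm_num) (by positivity)]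
    nlinarith [sq_nonneg D, mul_nonneg (sq_nonneg D) (by linarith : (0 : ℝ) ≤ M - 2)]
  have k8 : D ^ 2 ≤ (η / 2 * size r x) ^ 2 := by
    have : D ^ 2 / 4 ≤ η ^ 2 / 16 * size r x ^ 2 := (k7.trans (k6.trans k4)).trans e1
    calc D ^ 2 ≤ 4 * (η ^ 2 / 16 * size r x ^ 2) := by linarith
      _ = _ := by ring
  have k9 : |D| ≤ η / 2 * size r x := abs_le_of_sq_le_sq k8 (by positivity)
  rw [Real.dist_eq]
  have k10 : count S x q₀ a₀ / size r x - c q₀ a₀ = D / size r x := by
    rw [hD]
    field_simp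
  rw [k10, abs_div, abs_of_pos hX, div_lt_iff₀ hX]
  have : 0 < η * size r x := by positivity
  linarith

theorem sq1_irr : Irreducible (X ^ 2 + 1 : ℤ[X]) := by
  have hm : (X ^ 2 + 1 : ℤ[X]).Monic := by
    have : (X ^ 2 + 1 : ℤ[X]) = X ^ 2 + C 1 := by simp
    rw [this]
    exact monic_X_pow_add_C 1 (by norm_num)
  rw [hm.irreducible_iff_natDegree']
  have hd : (X ^ 2 + 1 : ℤ[X]).natDegree = 2 := by
    have : (X ^ 2 + 1 : ℤ[X]) = X ^ 2 + C 1 := by simp
    rw [this]
    exact natDegree_X_pow_add_C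
  refine ⟨?_, ?_⟩
  · intro h
    rw [h, natDegree_one] at hd
    omega
  · intro f g hf hg hfg hg2
    rw [hd, mem_Ioc] at hg2
    have h1 : g.natDegree = 1 := by omega
    have h2 : g = X + C (g.coeff 0) := hg.eq_X_add_C h1
    have h3 : (X ^ 2 + 1 : ℤ[X]).eval (-(g.coeff 0)) = 0 := by
      rw [← hfg, eval_mul]
      have : g.eval (-(g.coeff 0)) = 0 := by
        conv_lhs => rw [h2]
        simp
      rw [this, mul_zero]
    have h4 : (g.coeff 0) ^ 2 + 1 = 0 := by
      have : (X ^ 2 + 1 : ℤ[X]).eval (-(g.coeff 0)) = (g.coeff 0) ^ 2 + 1 := by simp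
      rw [← this, h3]
    nlinarith [sq_nonneg (g.coeff 0)]

theorem sq1_sys : Admissible (fun _ : Fin 1 => (X ^ 2 + 1 : ℤ[X])) := by
  have hd : (X ^ 2 + 1 : ℤ[X]).natDegree = 2 := by
    have : (X ^ 2 + 1 : ℤ[X]) = X ^ 2 + C 1 := by simp
    rw [this]
    exact natDegree_X_pow_add_C
  have hm : (X ^ 2 + 1 : ℤ[X]).Monic := by
    have : (X ^ 2 + 1 : ℤ[X]) = X ^ 2 + C 1 := by simp
    rw [this]
    exact monic_X_pow_add_C 1 (by norm_num)
  refine ⟨fun _ => sq1_irr, fun _ => ?_, fun _ => ?_, Function.injective_of_subsingleton _, ?_⟩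
  · show 0 < (X ^ 2 + 1 : ℤ[X]).natDegree
    omega
  · show 0 < (X ^ 2 + 1 : ℤ[X]).leadingCoeff
    rw [hm.leadingCoeff]
    exact one_pos
  · intro p hp
    refine ⟨0, fun _ h => ?_⟩
    have h2 : (X ^ 2 + 1 : ℤ[X]).eval ((0 : ℕ) : ℤ) = 1 := by simp
    have h4 : (p : ℤ) ∣ (X ^ 2 + 1 : ℤ[X]).eval ((0 : ℕ) : ℤ) := h
    rw [h2] at h4
    have h5 : p ∣ 1 := by exact_mod_cast h4
    exact hp.one_lt.ne' (Nat.dvd_one.1 h5)

/-! ### rotations -/

/-- the elements in a class -/
def inClass (S : Set ℕ) (q a : ℕ) : Set ℕ := {n : ℕ | n ∈ S ∧ n ≡ a [MOD q]}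

theorem count_MM (S : Set ℕ) (x q a : ℕ) : count S x q a = ((MM (inClass S q a) x).card : ℝ) := by
  classical
  unfold count
  rw [← Set.ncard_coe_finset]
  congr 2
  ext n
  unfold MM inClass
  simp only [coe_filter, mem_Icc, Set.mem_ofPred_eq]
  tauto

open Classical in
theorem count_MM_bohr (S : Set ℕ) (x q a : ℕ) (α : ℝ) (B : Set UnitAddCircle) :
    count (S ∩ bohr α B) x q a =
      (((MM (inClass S q a) x).filter (fun m : ℕ => ((m * α : ℝ) : UnitAddCircle) ∈ B)).card : ℝ) := by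
  unfold count
  rw [← Set.ncard_coe_finset]
  congr 2
  ext n
  unfold MM inClass bohr
  simp only [coe_filter, mem_filter, mem_Icc, Set.mem_ofPred_eq, Set.mem_inter_iff]
  tauto

/-- the index type: all systems and all classes -/
abbrev Ix : Type := (Σ r : ℕ, (Fin r → ℤ[X])) × ℕ × ℕ

theorem rot_all : ∃ T : Set ℝ, dimH T = 0 ∧ ∀ α : ℝ, α ∉ T → ∀ (r : ℕ) (f : Fin r → ℤ[X]), Admissible f →
    ∀ B : Set UnitAddCircle, volume (frontier B) = 0 →
      Independent r (primeArguments f) (bohr α B) (volume B).toReal := by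
  classical
  have hex : ∀ z : Ix, ∃ T : Set ℝ, dimH T = 0 ∧ (Admissible z.1.2 → ∀ α : ℝ, α ∉ T → ∀ h : ℤ, h ≠ 0 →
      Tendsto (fun x : ℕ => (∑ m ∈ MM (inClass (primeArguments z.1.2) z.2.1 z.2.2) x,
        Pool.Agent.Helper112.ee (m * (h * α))) / (XX z.1.1 x : ℂ)) atTop (𝓝 0)) := by
    rintro ⟨⟨r, f⟩, q, a⟩
    by_cases hf : Admissible f
    · obtain ⟨W, hW, h⟩ := rotPol f (sys hf)
      obtain ⟨_, T, hT, hT2⟩ := h (inClass (primeArguments f) q a) (fun n hn => hn.1)
      exact ⟨T, hT, fun _ => hT2⟩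
    · exact ⟨∅, by simp, fun h => absurd h hf⟩
  choose T hT hT2 using hex
  have hpol : Countable ℤ[X] := by
    rw [← Cardinal.mk_le_aleph0_iff]
    exact Polynomial.cardinalMk_le_max.trans (by simp)
  have hcnt : Countable Ix := by infer_instance
  refine ⟨⋃ z : Ix, T z, ?_, ?_⟩
  · rw [dimH_iUnion]
    apply le_antisymm _ bot_le
    exact iSup_le fun z => (hT z).le
  · intro α hα r f hf B hB q a _ _
    have hα' : α ∉ T (⟨r, f⟩, q, a) := fun h => hα (Set.mem_iUnion.2 ⟨_, h⟩)
    have h0 := hT2 (⟨r, f⟩, q, a) hf α hα'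
    obtain ⟨W, hW, h⟩ := rotPol f (sys hf)
    obtain ⟨hc, _⟩ := h (inClass (primeArguments f) q a) (fun n hn => hn.1)
    have hc' : ∀ᶠ x : ℕ in atTop, 0 < XX r x ∧
        ((MM (inClass (primeArguments f) q a) x).card : ℝ) ≤ W * XX r x := by
      filter_upwards [hc, eventually_ge_atTop 2] with x h1 h2
      exact ⟨XX_pos r h2, h1⟩
    have hG := circG hW.le hc' h0
    have hJ := jordanG hW.le hc' hG hB
    refine hJ.congr fun x => ?_
    rw [count_MM_bohr, count_MM, size_eq]

theorem fixed_iff {r : ℕ} {S W : Set ℕ} {v : ℝ} (hv : 0 < v) (h : Independent r S W v) (c : ℕ → ℕ → ℝ) :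
    Fixed r S c ↔ Fixed r (S ∩ W) (fun q a => v * c q a) := by
  unfold Fixed
  refine forall_congr' fun q => forall_congr' fun a => forall_congr' fun hq => forall_congr' fun ha => ?_
  have h1 := h q a hq ha
  have e : ∀ x : ℕ, (count (S ∩ W) x q a - v * count S x q a) / size r x =
      count (S ∩ W) x q a / size r x - v * (count S x q a / size r x) := fun x => by ring
  simp only [e] at h1
  constructor
  · intro h2
    have h3 := h1.add (h2.const_mul v)
    rw [zero_add] at h3
    exact h3.congr fun x => by ring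
  · intro h2
    have h3 := (h2.sub h1).const_mul v⁻¹
    rw [sub_zero, ← mul_assoc, inv_mul_cancel₀ hv.ne', one_mul] at h3
    refine h3.congr fun x => ?_
    field_simp
    ring

end Proofs

/-- **Prime values of polynomials in residue classes to large moduli, and rotations.**  `m² + 1` is an admissible
system, `r = 1`.  For every admissible system `f` of `r` polynomials:

(1) For every `ε > 0` there are `P₀` and `δ > 0` such that for all large `x`, EVERY set `S` of integers
`n` for which all `f_i(n)` are primes, every multiple `P` of `P₀` and all `1 ≤ Q ≤ δ x / log^r x`, the sum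
over `Q ≤ q < 2 Q` and over all `a` modulo `q` of the squares of
`#S(x; q, a) - (g / q) #S(x; g, a)`, `g = gcd(q, P)`, is at most `ε (x / log^r x)²`.

(2) For every such set `S` (for instance the set of all these integers) and all consistent numbers
`c(q, a)` (for instance the constants of Hardy and Littlewood, Bateman and Horn) the following are
equivalent: (i) `#S(x; q, a) ~ c(q, a) x / log^r x` for all fixed `q` and `a`; (ii) the mean square law
with the main terms `(g / q) c(g, a) x / log^r x` for the moduli up to `δ x / log^r x`; (iii) the mean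
square law at one scale `Q(x)` which tends to infinity.

(3) There is one set `T` of Hausdorff dimension zero such that for all `α` outside `T`, for ALL admissible
systems `f`: the integers `n` for which all `f_i(n)` are primes are, in every residue class, independent of
the condition `α n ∈ B` modulo one, for every `B` with boundary of measure zero, and of the condition that
`n` is in the Beatty sequence of the `⌊α j + γ⌋` (`α > 1`, all `γ`); and the formulas (i) of (2), with any
numbers `c(q, a)`, are equivalent to those for the `n` with the condition, with `|B| c(q, a)` (if `|B| > 0`),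
and with `c(q, a) / α`. -/
theorem result :
    Admissible (fun _ : Fin 1 => (X ^ 2 + 1 : ℤ[X])) ∧
    (∀ (r : ℕ) (f : Fin r → ℤ[X]), Admissible f →
      (∀ ε : ℝ, 0 < ε → ∃ (P₀ : ℕ) (δ : ℝ), 1 ≤ P₀ ∧ 0 < δ ∧ ∀ᶠ x : ℕ in atTop,
        ∀ S : Set ℕ, S ⊆ primeArguments f → ∀ P : ℕ, 1 ≤ P → P₀ ∣ P → ∀ Q : ℕ, 1 ≤ Q →
          (Q : ℝ) ≤ δ * size r x → relative S x P Q ≤ ε * size r x ^ 2) ∧
      (∀ S : Set ℕ, S ⊆ primeArguments f → ∀ c : ℕ → ℕ → ℝ, Consistent c →
        List.TFAE [Fixed r S c, Large r S c, OneScale r S c])) ∧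
    ∃ T : Set ℝ, dimH T = 0 ∧ ∀ α : ℝ, α ∉ T → ∀ (r : ℕ) (f : Fin r → ℤ[X]), Admissible f →
      (∀ B : Set UnitAddCircle, volume (frontier B) = 0 →
        Independent r (primeArguments f) (bohr α B) (volume B).toReal ∧
        (0 < volume B → ∀ c : ℕ → ℕ → ℝ, Fixed r (primeArguments f) c ↔
          Fixed r (primeArguments f ∩ bohr α B) (fun q a => (volume B).toReal * c q a))) ∧
      (1 < α → ∀ γ : ℝ, Independent r (primeArguments f) (beatty α γ) (1 / α) ∧
        ∀ c : ℕ → ℕ → ℝ, Fixed r (primeArguments f) c ↔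
          Fixed r (primeArguments f ∩ beatty α γ) (fun q a => 1 / α * c q a)) := by
  refine ⟨sq1_sys, fun r f hf => ⟨fun ε hε => rel hf ε hε, fun S hS c hc => ?_⟩, ?_⟩
  · tfae_have 1 → 2 := to_large hf hS
    tfae_have 2 → 3 := to_one
    tfae_have 3 → 1 := to_fixed hc
    tfae_finish
  · obtain ⟨T₀, hdim, h⟩ := rot_all
    refine ⟨T₀ ∪ (fun x : ℝ => x⁻¹) '' (T₀ ∩ Set.Ioi 0), ?_, ?_⟩
    · rw [dimH_union, hdim]
      apply le_antisymm _ bot_le
      apply max_le le_rfl
      have h1 : ContDiffOn ℝ 1 (fun x : ℝ => x⁻¹) (Set.Ioi 0) := by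
        intro x hx
        exact (contDiffAt_inv ℝ (ne_of_gt hx)).contDiffWithinAt
      refine (h1.dimH_image_le (convex_Ioi 0) Set.inter_subset_right).trans ?_
      exact (dimH_mono Set.inter_subset_left).trans hdim.le
    · intro α hα r f hf
      have hα0 : α ∉ T₀ := fun h => hα (Or.inl h)
      refine ⟨fun B hB => ?_, fun hα1 γ => ?_⟩
      · have hI := h α hα0 r f hf B hB
        exact ⟨hI, fun hB0 c => fixed_iff (ENNReal.toReal_pos hB0.ne' (measure_ne_top _ _)) hI c⟩
      · have hpos : 0 < α := by linarith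
        have hα2 : α⁻¹ ∉ T₀ := by
          intro h
          apply hα
          right
          exact ⟨α⁻¹, ⟨h, Set.mem_Ioi.2 (inv_pos.2 hpos)⟩, inv_inv α⟩
        have hI := h α⁻¹ hα2 r f hf (Pool.Agent.H90.ST.beattySet α γ) (Pool.Agent.H90.ST.frontier_beatty α γ)
        rw [Pool.Agent.H90.SK.volume_beattySet hα1] at hI
        have e : bohr α⁻¹ (Pool.Agent.H90.ST.beattySet α γ) = beatty α γ := by
          ext m
          exact (Pool.Agent.H90.ST.beatty_iff hpos γ m).symm
        rw [e] at hI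
        exact ⟨hI, fun c => fixed_iff (by positivity) hI c⟩

end Pool.Agent.Results.MP_f1a94e_nt.LargeModuli
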