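import Mathlib
import Pool.Agent.H2.All
import Pool.Agent.H2.EqQ

/-!
# Primes near squares: a metric strong law with the predicted (Bateman-Horn type) main term

For every `1 / 2 < δ < 1` and almost every `θ > 0`: for every integer `h` (in particular for
`h = 1`, the perturbations of `n ^ 2 + 1`), the primes among the numbers `n ^ 2 + h + ⌊θ n ^ δ⌋`
are infinite in number, and the sum of `1 / n` over the `n ≤ X` for which this number is prime is
`(1 / 2) log log X + o((log log X) ^ (2 / 3 + ε))`, the value which the heuristic
`(density of the primes near n ^ 2) = 1 / (2 log n)` predicts.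

Steps of the proof: the square roots of the primes are equidistributed modulo one in arcs of length
`X ^ (-τ)` for every `τ < 1 / 4` (identity of Vaughan, double large sieve, spacing of the numbers
`h √m`, second derivative test); this gives the mean value over `θ`; an upper bound sieve gives the
upper bound of the right order for every `θ`; the scales are nearly independent, and a law of large
numbers for the scales follows.
-/

set_option autoImplicit false

namespace Pool.Agent.Results.MP_f1a94e_nt.MetricMertens

open MeasureTheory Finset Filter Topology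

/-- the perturbed quadratic polynomial `n ^ 2 + h + ⌊θ n ^ δ⌋` -/
noncomputable def pert (h : ℤ) (θ δ : ℝ) (n : ℕ) : ℤ := (n : ℤ) ^ 2 + h + ⌊θ * (n : ℝ) ^ δ⌋

/-- the sum of `1 / n` over the `n ≤ X` for which `n ^ 2 + h + ⌊θ n ^ δ⌋` is a (positive) prime -/
noncomputable def primeSum (h : ℤ) (θ δ : ℝ) (X : ℕ) : ℝ :=
  ∑ n ∈ Icc 1 X, if (pert h θ δ n).toNat.Prime then 1 / (n : ℝ) else 0

/-- For every `δ` with `1 / 2 < δ < 1` and almost every `θ > 0`: for all integers `h` and all
`ε > 0`, `primeSum h θ δ X = (1 / 2) log log X + o((log log X) ^ (2 / 3 + ε))` as `X → ∞`. -/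
theorem result : ∀ δ : ℝ, 1 / 2 < δ → δ < 1 →
    ∀ᵐ θ : ℝ, 0 < θ → ∀ h : ℤ, ∀ ε : ℝ, 0 < ε → Tendsto (fun X : ℕ =>
      (primeSum h θ δ X - Real.log (Real.log X) / 2) / Real.log (Real.log X) ^ (2 / 3 + ε))
      atTop (𝓝 0) := by
  intro δ h1 h2
  exact Pool.Agent.H2.law_all (δ := δ) (τ := (1 - δ) / 2) (by linarith) h2 (by linarith)
    (by linarith) (Pool.Agent.H2.eqQ_all (by linarith) (by linarith))

end Pool.Agent.Results.MP_f1a94e_nt.MetricMertens
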