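import Mathlib
import Pool.Agent.H2.K6

/-!
# Primes near squares: the full asymptotic formula for almost all pairs of parameters

For almost every pair `(θ, δ)` with `θ > 0` and `1 / 2 < δ < 1`, for every integer `h` (in
particular for `h = 1`, the perturbations of `n ^ 2 + 1` by `o(n)`) and every `A`, the number of
the `n ≤ X` for which `n ^ 2 + h + ⌊θ n ^ δ⌋` is prime is
`∑_{2 ≤ n ≤ X} 1 / (2 log n) + O(X / (log X) ^ A)`, as the heuristic predicts.

Steps of the proof. In the coordinates `u = log θ` and `δ` the value of the perturbation at `n` is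
`⌊exp(u + δ log n)⌋`, so that it is a function of `u + δ log n`. The second moment over a rectangle
of the block sums of `(2 log n) 1_P - 1` reduces, on substituting `v = u + δ log n`, to the
averages over `m` of the same summand along the lines `u + δ log n = v`, which are transversal to
the level lines `u + δ log m = w`; after a splitting into short blocks of `m` these averages are
governed by the number of primes in short intervals above the squares on average, that is by the
equidistribution modulo one of the square roots of the primes in arcs of length `X ^ (-τ)`,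
`τ < 1 / 4` (identity of Vaughan, double large sieve, spacing of the numbers `h √m`, second
derivative test). This gives a second moment that is smaller than the square of the length by any
power of the logarithm, and the lemma of Borel and Cantelli finishes the proof.
-/

set_option autoImplicit false

namespace Pool.Agent.Results.MP_f1a94e_nt.SmallPerturbations

open MeasureTheory Finset Filter Topology

/-- the perturbed quadratic polynomial `n ^ 2 + h + ⌊θ n ^ δ⌋` -/
noncomputable def pert (h : ℤ) (θ δ : ℝ) (n : ℕ) : ℤ := (n : ℤ) ^ 2 + h + ⌊θ * (n : ℝ) ^ δ⌋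

/-- the number of the `n` with `1 ≤ n ≤ X` for which `n ^ 2 + h + ⌊θ n ^ δ⌋` is a (positive) prime -/
noncomputable def primeCount (h : ℤ) (θ δ : ℝ) (X : ℕ) : ℕ :=
  ((Icc 1 X).filter fun n : ℕ => (pert h θ δ n).toNat.Prime).card

/-- For Lebesgue-almost every pair `(θ, δ)` of real numbers with `θ > 0` and `1 / 2 < δ < 1`: for
all integers `h` and all natural numbers `A` there is a constant `C` such that, for all `X ≥ 2`,
`|primeCount h θ δ X - ∑_{2 ≤ n ≤ X} 1 / (2 log n)| ≤ C X / (log X) ^ A`. -/
theorem result : ∀ᵐ p : ℝ × ℝ, 0 < p.1 → 1 / 2 < p.2 → p.2 < 1 → ∀ (h : ℤ) (A : ℕ),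
    ∃ C : ℝ, ∀ X : ℕ, 2 ≤ X →
      |(primeCount h p.1 p.2 X : ℝ) - ∑ n ∈ Icc 2 X, 1 / (2 * Real.log n)| ≤
        C * X / Real.log X ^ A := by
  filter_upwards [Pool.Agent.H2.law_pair] with p hp p1 p2 p3 h A
  obtain ⟨C, hC, X0, hX0⟩ := hp p1 p2 p3 h A
  refine ⟨C + 2 * Real.log (X0 + 2) ^ A, ?_⟩
  intro X hX
  have hXr : (2 : ℝ) ≤ X := by exact_mod_cast hX
  have hlog : 0 < Real.log X := Real.log_pos (by linarith)
  have hX0r : (0 : ℝ) ≤ X0 := Nat.cast_nonneg _
  have hlogX0 : 0 ≤ Real.log (X0 + 2) := Real.log_nonneg (by linarith)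
  rcases le_or_gt X0 X with h1 | h1
  · refine (hX0 X h1).trans ?_
    have : 0 ≤ 2 * Real.log (X0 + 2) ^ A := by positivity
    gcongr
    linarith
  · have e1 : (primeCount h p.1 p.2 X : ℝ) ≤ X := by
      have h2 : primeCount h p.1 p.2 X ≤ X := by
        unfold primeCount
        refine (card_filter_le _ _).trans ?_
        rw [Nat.card_Icc]
        omega
      exact_mod_cast h2
    have e2 : ∑ n ∈ Icc 2 X, 1 / (2 * Real.log n) ≤ X := by
      have h2 : ∀ n ∈ Icc 2 X, 1 / (2 * Real.log (n : ℝ)) ≤ 1 := by
        intro n hn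
        rw [mem_Icc] at hn
        have h3 : Real.log 2 ≤ Real.log n :=
          Real.log_le_log (by norm_num) (by exact_mod_cast hn.1)
        have h4 := Real.log_two_gt_d9
        rw [div_le_one (by linarith)]
        linarith
      refine (sum_le_sum h2).trans ?_
      rw [sum_const, Nat.card_Icc, nsmul_eq_mul, mul_one]
      have h3 : X + 1 - 2 ≤ X := by omega
      exact_mod_cast h3
    have e3 : 0 ≤ ∑ n ∈ Icc 2 X, 1 / (2 * Real.log n) := by
      refine sum_nonneg fun n hn => ?_
      rw [mem_Icc] at hn
      have h3 : 0 ≤ Real.log (n : ℝ) := Real.log_nonneg (by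
        have : 1 ≤ n := by omega
        exact_mod_cast this)
      positivity
    have e4 : |(primeCount h p.1 p.2 X : ℝ) - ∑ n ∈ Icc 2 X, 1 / (2 * Real.log n)| ≤ 2 * X := by
      have h0 : (0 : ℝ) ≤ primeCount h p.1 p.2 X := Nat.cast_nonneg _
      rw [abs_le]
      constructor <;> linarith
    refine e4.trans ?_
    rw [le_div_iff₀ (by positivity)]
    have e5 : Real.log X ^ A ≤ Real.log (X0 + 2) ^ A := by
      apply pow_le_pow_left₀ hlog.le
      apply Real.log_le_log (by linarith)
      have : (X : ℝ) ≤ X0 := by exact_mod_cast h1.le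
      linarith
    calc 2 * (X : ℝ) * Real.log X ^ A ≤ 2 * X * Real.log (X0 + 2) ^ A := by gcongr
      _ ≤ (C + 2 * Real.log (X0 + 2) ^ A) * X := by
          have : 0 ≤ C * (X : ℝ) := by positivity
          linarith

end Pool.Agent.Results.MP_f1a94e_nt.SmallPerturbations
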