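import Mathlib
import Pool.Agent.H95.SP.Cnt
import Pool.Agent.H95.SP.Shp

/-!
# `m ^ 2 + 1` behaves like a prime for sparse `m`

Let `S` be a finite set of primes. An integer `z` is *short* for a number `F` if
`z = c_1 u_1 + ⋯ + c_k u_k` with integers `|c_i| ≤ F ^ δ` and `S`-units `u_i` (up to the sign
products of positive and negative powers of primes of `S`) whose numerators and denominators are at
most `F ^ C`. We say that `F` *behaves like a prime* if every short `z` is divisible by `F` up to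
primes of `S`, or has a common divisor `≤ F ^ ε` with `F`. For given `S`, `k`, `C` and `ε > 0`:

1. there are `δ > 0` and `m₀` such that `m ^ 2 + 1` behaves like a prime for all `m ≥ m₀` with
   `m = c u`, `c ≤ m ^ δ` and `u` composed of primes of `S`, if `m` is not a `p`-th power for an odd
   prime `p` and not twice a square;
2. the exceptions in 1 are real: if `w ≥ 2` is divisible by all primes of `S` and by no others, then
   `(w ^ p) ^ 2 + 1` (`p ≥ 3` odd, `ε < 1 / p`) and `(2 w ^ 2) ^ 2 + 1` (`ε < 1 / 2`) do not behave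
   like primes for sums of `2` and of `5` terms;
3. let `r ≥ 2` and let `τ y > 0` be arbitrary thresholds for the integer vectors `y ≠ 0` of length
   `r`. There are `δ > 0`, `B` and `m₀` such that `m ^ 2 + 1` behaves like a prime for all `m ≥ m₀`
   which are sums `c_1 u_1 + ⋯ + c_r u_r` with integers `0 < |c_i| ≤ m ^ δ` and `S`-units `u_i` of
   height at most `m ^ C`, unless there is `y ≠ 0` with `|y_i| ≤ B` such that `∏ u_i ^ y_i` has height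
   at most `m ^ τ y`;
4. let `β ≥ 2` be composed of primes of `S` and `r ≥ 2`. For every `η > 0` there are `δ > 0` and `N₀`
   such that `m ^ 2 + 1` behaves like a prime for all but at most `η N ^ r` of the numbers
   `m < β ^ N` with exactly `r` nonzero digits in base `β`, for all `N ≥ N₀`;
5. a number `F` which behaves like a prime satisfies Euclid's lemma for products of `j < 1 / ε` short
   integers.
-/

set_option autoImplicit false

namespace Pool.Agent.Results.MP_f1a94e_nt.SparseArguments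

/-- up to its sign, `x` is a product of powers (with positive or negative exponents) of primes
of `S` -/
def IsSUnit (S : Finset ℕ) (x : ℚ) : Prop :=
  x ≠ 0 ∧ x.num.natAbs.primeFactors ⊆ S ∧ x.den.primeFactors ⊆ S

/-- `z` is a sum of `k` products `c u`, where `c` is an integer with `|c| ≤ M` and `u` an `S`-unit
whose numerator and denominator are at most `H` (in absolute value) -/
def Short (S : Finset ℕ) (k : ℕ) (M H : ℝ) (z : ℤ) : Prop :=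
  ∃ (c : Fin k → ℤ) (u : Fin k → ℚ), (∀ i, |(c i : ℝ)| ≤ M) ∧
    (∀ i, IsSUnit S (u i) ∧ |((u i).num : ℝ)| ≤ H ∧ ((u i).den : ℝ) ≤ H) ∧
    (z : ℚ) = ∑ i, c i * u i

/-- every short `z` is divisible by `F` up to primes of `S`, or has a small common divisor
with `F` -/
def PrimeLike (S : Finset ℕ) (k : ℕ) (δ C ε : ℝ) (F : ℕ) : Prop :=
  ∀ z : ℤ, Short S k ((F : ℝ) ^ δ) ((F : ℝ) ^ C) z →
    (∃ N : ℕ, (F : ℤ) ∣ z * ((∏ p ∈ S, p : ℕ) : ℤ) ^ N) ∨ (Int.gcd z F : ℝ) ≤ (F : ℝ) ^ ε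

/-- the number of nonzero digits of `m` in base `β` -/
def nzd (β m : ℕ) : ℕ := ((Nat.digits β m).filter fun x => x ≠ 0).length

open Classical in
/-- **Main theorem.** -/
theorem result (S : Finset ℕ) (hS : ∀ p ∈ S, p.Prime) (k : ℕ) (C ε : ℝ) (hC : 1 ≤ C)
    (hε : 0 < ε) :
    -- 1. one term
    (∃ δ : ℝ, 0 < δ ∧ ∃ m₀ : ℕ, ∀ m : ℕ, m₀ ≤ m →
      (∃ c u : ℕ, m = c * u ∧ (c : ℝ) ≤ (m : ℝ) ^ δ ∧ u.primeFactors ⊆ S) →
      (∀ p : ℕ, p.Prime → p ≠ 2 → ∀ w : ℕ, w ^ p ≠ m) → (∀ w : ℕ, 2 * w ^ 2 ≠ m) →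
      PrimeLike S k δ C ε (m ^ 2 + 1)) ∧
    -- 2. the exceptions are real
    (∀ w : ℕ, 2 ≤ w → (∀ q ∈ S, q ∣ w) → w.primeFactors ⊆ S → ∀ δ' ε' : ℝ, 0 ≤ δ' →
      (∀ p : ℕ, Odd p → 3 ≤ p → p * ε' < 1 → ¬ PrimeLike S 2 δ' C ε' ((w ^ p) ^ 2 + 1)) ∧
      (2 * ε' < 1 → ¬ PrimeLike S 5 δ' C ε' ((2 * w ^ 2) ^ 2 + 1))) ∧
    -- 3. several terms
    (∀ r : ℕ, 2 ≤ r → ∀ τ : (Fin r → ℤ) → ℝ, (∀ y, 0 < τ y) →
      ∃ δ : ℝ, 0 < δ ∧ ∃ B m₀ : ℕ, ∀ m : ℕ, m₀ ≤ m → ∀ (c : Fin r → ℤ) (u : Fin r → ℚ),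
        (∀ i, c i ≠ 0 ∧ |(c i : ℝ)| ≤ (m : ℝ) ^ δ) →
        (∀ i, IsSUnit S (u i) ∧ |((u i).num : ℝ)| ≤ (m : ℝ) ^ C ∧ ((u i).den : ℝ) ≤ (m : ℝ) ^ C) →
        (m : ℚ) = ∑ i, c i * u i →
        (∃ y : Fin r → ℤ, y ≠ 0 ∧ (∀ i, |y i| ≤ B) ∧
          |((∏ i, u i ^ y i).num : ℝ)| ≤ (m : ℝ) ^ τ y ∧
          ((∏ i, u i ^ y i).den : ℝ) ≤ (m : ℝ) ^ τ y) ∨
        PrimeLike S k δ C ε (m ^ 2 + 1)) ∧
    -- 4. almost all numbers with `r ≥ 2` nonzero digits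
    (∀ β : ℕ, 2 ≤ β → β.primeFactors ⊆ S → ∀ r : ℕ, 2 ≤ r → ∀ η : ℝ, 0 < η →
      ∃ δ : ℝ, 0 < δ ∧ ∃ N₀ : ℕ, ∀ N : ℕ, N₀ ≤ N →
        (((Finset.range (β ^ N)).filter fun m =>
          nzd β m = r ∧ ¬ PrimeLike S k δ C ε (m ^ 2 + 1)).card : ℝ) ≤ η * (N : ℝ) ^ r) ∧
    -- 5. Euclid's lemma
    (∀ (F j : ℕ) (δ : ℝ), 2 ≤ F → j * ε < 1 → PrimeLike S k δ C ε F →
      ∀ z : Fin j → ℤ, (∀ i, Short S k ((F : ℝ) ^ δ) ((F : ℝ) ^ C) (z i)) →
        (F : ℤ) ∣ ∏ i, z i → ∃ i, ∃ N : ℕ, (F : ℤ) ∣ z i * ((∏ p ∈ S, p : ℕ) : ℤ) ^ N) := by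
  refine ⟨Pool.Agent.H95.SP.one_term S hS k C ε hε, ?_, ?_, ?_, ?_⟩
  · intro w hw hwS hSw δ' ε' hδ
    exact ⟨fun p hp hp3 hpε => Pool.Agent.H95.SP.odd_power S w hw hwS hSw p hp hp3 δ' C ε' hδ hC hpε,
      fun h2 => Pool.Agent.H95.SP.twice_square S w hw hwS hSw δ' C ε' hδ hC h2⟩
  · intro r hr τ hτ
    exact Pool.Agent.H95.SP.more_terms S hS r hr k C ε hε τ hτ
  · intro β hβ hβS r hr η hη
    exact Pool.Agent.H95.SP.density β hβ S hS hβS r hr k C ε hC hε η hη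
  · intro F j δ hF hj h z hz hdvd
    exact Pool.Agent.H95.SP.euclid_like S k j δ C ε hj F hF h z hz hdvd

end Pool.Agent.Results.MP_f1a94e_nt.SparseArguments
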